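import Pool.Agent.H307R2.OP.KP
import Pool.Agent.H413R3.OddL.Defs

set_option autoImplicit false

namespace Pool.Agent.H413R3.OddL

open Finset Pool.Agent.H307R2.OP

/-- task B-KP -/
theorem killPrime : KillPrime := by
  refine ⟨80000000000, fun δ hδ => ?_⟩
  have h24 : δ % 12 = 11 := hδ.1
  have hd : 11 ≤ δ := by omega
  obtain ⟨p, hp, hle, ha, hb⟩ := KP.exists_prime (δ := δ) (by omega) (by omega)
  have hcop : Nat.Coprime p δ := by
    by_contra hc
    unfold KP.av at ha
    rw [if_neg hc] at ha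
    norm_num at ha
  have hodd : p % 2 = 1 := by
    by_contra hc
    unfold KP.bv at hb
    rw [if_neg hc] at hb
    norm_num at hb
  have hJ : jacobiSym (p : ℤ) δ = -1 := by
    unfold KP.bv at hb
    rwa [if_pos hodd] at hb
  have h8 : p % 8 = 3 ∨ p % 8 = 5 := by
    unfold KP.av at ha
    rw [if_pos hcop, ZMod.χ₈_nat_eq_if_mod_eight] at ha
    split_ifs at ha with h1 h2
    omega
  have h3 : p ≠ 3 := by
    rintro rfl
    have h4 : jacobiSym ((3 : ℕ) : ℤ) δ = -jacobiSym ((δ : ℕ) : ℤ) 3 :=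
      jacobiSym.quadratic_reciprocity_three_mod_four (by norm_num) (by omega)
    have h5 : jacobiSym ((δ : ℕ) : ℤ) 3 = -1 := by
      rw [jacobiSym.mod_left]
      have : ((δ : ℤ) % ((3 : ℕ) : ℤ)) = 2 := by omega
      rw [this]
      decide +kernel
    rw [h5] at h4
    rw [h4] at hJ
    norm_num at hJ
  refine ⟨p, hp, ?_, h8, ?_, ?_⟩
  · have := hp.two_le
    rcases h8 with h | h <;> omega
  · unfold J
    rw [hJ]; norm_num
  · refine hle.trans ?_
    calc 8 * δ ^ 2 * (100000 * δ ^ 3) ^ 2 = 80000000000 * δ ^ 8 := by ring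
      _ ≤ 80000000000 * δ ^ 80000000000 :=
        Nat.mul_le_mul_left _ (Nat.pow_le_pow_right (by omega) (by norm_num))

end Pool.Agent.H413R3.OddL
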