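import Pool.Agent.H307R2.OP.DefsC
import Pool.Agent.H413R3.OddL.Defs

set_option autoImplicit false

/-!
# Task T2: tuples represented by a given kernel, trivial bound
-/

namespace Pool.Agent.H413R3.OddL

open Pool.Agent.H307R2.OP

open Finset

namespace T2AuxL

theorem pb_inj {i i' c c' q : ℕ} (h : q ∈ PB i c) (h' : q ∈ PB i' c') : i = i' := by
  simp only [PB, mem_filter, mem_Ioc] at h h'
  rcases lt_trichotomy i i' with hlt | heq | hgt
  · exfalso
    have : 2 ^ (i + 1) ≤ 2 ^ i' := Nat.pow_le_pow_right (by norm_num) hlt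
    omega
  · exact heq
  · exfalso
    have : 2 ^ (i' + 1) ≤ 2 ^ i := Nat.pow_le_pow_right (by norm_num) hgt
    omega

/-- counting by the Chinese remainder theorem -/
theorem count_le (A : Finset ℕ) (Ω : ℕ → Finset ℕ) (X : ℕ) (hp : ∀ q ∈ A, q.Prime)
    (hΩ : ∀ q ∈ A, (Ω q).card ≤ 2) :
    ((range (X + 1)).filter (fun u => ∀ q ∈ A, u % q ∈ Ω q)).card ≤
      (X / (∏ q ∈ A, q) + 1) * 2 ^ A.card := by
  classical
  set m := ∏ q ∈ A, q with hm
  have hmpos : 0 < m := Finset.prod_pos (fun q hq => (hp q hq).pos)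
  have h1 : ((range (X + 1)).filter (fun u => ∀ q ∈ A, u % q ∈ Ω q)).card ≤
      ((range (X / m + 1)) ×ˢ (A.pi Ω)).card := by
    refine Finset.card_le_card_of_injOn (fun u => (u / m, fun q _ => u % q)) ?_ ?_
    · intro u hu
      simp only [coe_filter, mem_range, Set.mem_ofPred_eq] at hu
      simp only [coe_product, Set.mem_prod, mem_coe, mem_range, mem_pi]
      refine ⟨?_, fun q hq => hu.2 q hq⟩
      exact Nat.lt_succ_of_le (Nat.div_le_div_right (Nat.lt_succ_iff.mp hu.1))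
    · intro u _ v _ huv
      simp only [Prod.mk.injEq] at huv
      obtain ⟨hd, hr⟩ := huv
      have hr' : ∀ q ∈ A, u % q = v % q := fun q hq => congrFun (congrFun hr q) hq
      have key : ∀ a b : ℕ, a ≤ b → (∀ q ∈ A, a % q = b % q) → a % m = b % m := by
        intro a b hab h
        have hdvd : m ∣ b - a := by
          rw [hm]
          refine Finset.prod_primes_dvd _ (fun q hq => (hp q hq).prime) (fun q hq => ?_)
          exact (Nat.modEq_iff_dvd' hab).mp (h q hq)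
        exact (Nat.modEq_iff_dvd' hab).mpr hdvd
      have hmod : u % m = v % m := by
        rcases le_total u v with h | h
        · exact key u v h hr'
        · exact (key v u h (fun q hq => (hr' q hq).symm)).symm
      rw [← Nat.div_add_mod u m, ← Nat.div_add_mod v m, hmod, hd]
  refine h1.trans ?_
  rw [Finset.card_product, card_range, Finset.card_pi]
  refine Nat.mul_le_mul le_rfl ?_
  calc ∏ a ∈ A, (Ω a).card ≤ ∏ _a ∈ A, 2 := Finset.prod_le_prod' hΩ
    _ = 2 ^ A.card := by rw [Finset.prod_const]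

variable {M : ℕ} (g : Cfg M)

/-- the set of the small primes of a tuple -/
noncomputable def AA (A : Fin M → Finset ℕ) : Finset ℕ := g.R ∪ univ.biUnion A

theorem fam_mem {A : Fin M → Finset ℕ} (hA : A ∈ g.Fam) (j : Fin M) :
    A j ⊆ g.Blk j ∧ (A j).card = g.k j := by
  rw [Cfg.Fam, Fintype.mem_piFinset] at hA
  exact mem_powersetCard.mp (hA j)

theorem fam_disj (hg : g.Ok) {A : Fin M → Finset ℕ} (hA : A ∈ g.Fam) {i j : Fin M} (hij : i ≠ j) :
    Disjoint (A i) (A j) := by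
  rw [Finset.disjoint_left]
  intro q hi hj
  have h1 := (fam_mem g hA i).1 hi
  have h2 := (fam_mem g hA j).1 hj
  rw [Cfg.Blk, mem_sdiff] at h1 h2
  exact hij (hg.inj (pb_inj h1.1 h2.1))

theorem fam_disjR {A : Fin M → Finset ℕ} (hA : A ∈ g.Fam) :
    Disjoint g.R (univ.biUnion A) := by
  rw [Finset.disjoint_left]
  intro q hR hq
  rw [mem_biUnion] at hq
  obtain ⟨j, -, hj⟩ := hq
  have h1 := (fam_mem g hA j).1 hj
  rw [Cfg.Blk, mem_sdiff] at h1
  exact h1.2 hR

theorem AA_prod (hg : g.Ok) {A : Fin M → Finset ℕ} (hA : A ∈ g.Fam) :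
    ∏ q ∈ AA g A, q = g.Rp * g.Q A := by
  rw [AA, prod_union (fam_disjR g hA), Cfg.Rp, Cfg.Q,
    prod_biUnion (fun i _ j _ hij => fam_disj g hg hA hij)]

theorem AA_card (hg : g.Ok) {A : Fin M → Finset ℕ} (hA : A ∈ g.Fam) :
    (AA g A).card = ∑ j, g.k j + g.R.card := by
  rw [AA, card_union_of_disjoint (fam_disjR g hA),
    card_biUnion (fun i _ j _ hij => fam_disj g hg hA hij), add_comm]
  congr 1
  exact Finset.sum_congr rfl (fun j _ => (fam_mem g hA j).2)

theorem AA_prime (hg : g.Ok) {A : Fin M → Finset ℕ} (hA : A ∈ g.Fam) :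
    ∀ q ∈ AA g A, q.Prime ∧ 5 ≤ q := by
  intro q hq
  rw [AA, mem_union, mem_biUnion] at hq
  rcases hq with h | ⟨j, -, h⟩
  · exact ⟨(hg.hR q h).1, (hg.hR q h).2.1⟩
  · have h1 := (fam_mem g hA j).1 h
    rw [Cfg.Blk, mem_sdiff, PB, mem_filter, mem_Ioc] at h1
    refine ⟨h1.1.2.1, ?_⟩
    have h2 : 2 ^ 3 ≤ 2 ^ g.κ j := Nat.pow_le_pow_right (by norm_num) (hg.hκ j)
    have := h1.1.1.1
    omega

theorem m_pos (hg : g.Ok) {A : Fin M → Finset ℕ} (hA : A ∈ g.Fam) : 0 < g.Rp * g.Q A := by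
  rw [← AA_prod g hg hA]
  exact Finset.prod_pos (fun q hq => (AA_prime g hg hA q hq).1.pos)

theorem om_le (h1 : QRStmt) (r δ s q : ℕ) (hδ : AdmL δ) (hq : q.Prime) (h5 : 5 ≤ q) :
    (Om r δ s q).card ≤ 2 := by
  by_cases hs : q ∣ s
  · rw [h1.om_zero r δ s q hδ hq h5 hs]
    simp
  · have h := h1.om_card r δ s q hδ hq h5 hs
    have : ((Om r δ s q).card : ℝ) ≤ 2 := by
      rw [h]
      rcases h1.val q δ with h | h | h <;> rw [h] <;> norm_num
    exact_mod_cast this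

theorem sum_inv (h2 : ESStmt) :
    ∑ A ∈ g.Fam, 1 / (g.Q A : ℝ) ≤ g.W := by
  have e1 : ∑ A ∈ g.Fam, 1 / (g.Q A : ℝ) =
      ∑ A ∈ Fintype.piFinset (fun j => powersetCard (g.k j) (g.Blk j)),
        ∏ j, ∏ q ∈ A j, (fun q : ℕ => (1 : ℝ) / q) q := by
    refine Finset.sum_congr rfl (fun A _ => ?_)
    rw [Cfg.Q]
    push_cast
    rw [one_div, ← Finset.prod_inv_distrib]
    refine Finset.prod_congr rfl (fun j _ => ?_)
    rw [← Finset.prod_inv_distrib]
    refine Finset.prod_congr rfl (fun q _ => ?_)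
    rw [one_div]
  rw [e1, h2.fam M g.Blk g.k, Cfg.W]
  refine Finset.prod_le_prod (fun j _ => ?_) (fun j _ => ?_)
  · exact Finset.sum_nonneg (fun A _ => Finset.prod_nonneg (fun q _ => by positivity))
  · exact h2.up (g.Blk j) (fun q : ℕ => (1 : ℝ) / q) (g.k j) (fun q _ => by positivity)

theorem U_ge (hg : g.Ok) : (2 : ℝ) ^ (g.I / 8) ≤ g.U := by
  rw [Cfg.U, le_div_iff₀ (by positivity), ← pow_add]
  apply Real.le_sqrt_of_sq_le
  rw [← pow_mul]
  have h1 := hg.hrI
  have h2 : (2 : ℝ) ^ ((g.I / 8 + g.r) * 2) ≤ 2 ^ g.I :=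
    pow_le_pow_right₀ (by norm_num) (by omega)
  have h3 : (0 : ℝ) < 2 ^ g.I := by positivity
  linarith

end T2AuxL

open T2AuxL in
theorem tupLarge (h1 : QRStmt) (h2 : ESStmt) (h3 : TupStmt) : TupLarge := by
  classical
  intro M g hg δ hδ
  have hδpos : 0 < δ := by
    have := hδ.1
    omega
  set S0 : ℕ := ⌊Real.sqrt (3 * 2 ^ g.I / δ)⌋₊ with hS0
  set U0 : ℕ := ⌊g.U⌋₊ with hU0
  set H : ℕ := ∑ j, g.k j + g.R.card with hH
  have hUnn : 0 ≤ g.U := le_trans (by positivity) (U_ge g hg)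
  -- the target set
  set X : Finset (Σ _ : (Fin M → Finset ℕ) × ℕ, ℕ) :=
    (g.Fam ×ˢ (Icc 1 S0)).sigma (fun x => (range (U0 + 1)).filter
      (fun u => (g.Rp * g.Q x.1) ∣ δ * x.2 ^ 2 + 4 ^ g.r * u ^ 2)) with hX
  have hcard1 : (g.Tup.filter (fun t => Rep g.r δ (g.N t))).card ≤ X.card := by
    let f : (Σ _ : Fin M → Finset ℕ, ℕ) → (Σ _ : (Fin M → Finset ℕ) × ℕ, ℕ) := fun t =>
      if h : Rep g.r δ (g.N t) then ⟨(t.1, h.choose), h.choose_spec.choose⟩ else ⟨(t.1, 0), 0⟩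
    have hf : ∀ t, (h : Rep g.r δ (g.N t)) → ∃ s u : ℕ, f t = ⟨(t.1, s), u⟩ ∧
        3 * g.N t = δ * s ^ 2 + 4 ^ g.r * u ^ 2 := by
      intro t h
      refine ⟨h.choose, h.choose_spec.choose, ?_, h.choose_spec.choose_spec⟩
      simp only [f, dif_pos h]
    refine Finset.card_le_card_of_injOn f ?_ ?_
    · intro t ht
      rw [mem_coe, mem_filter] at ht
      obtain ⟨htT, hRep⟩ := ht
      obtain ⟨s, u, hfe, hsu⟩ := hf t hRep
      rw [hfe, mem_coe, hX, mem_sigma]
      obtain ⟨s', hs'p, hs'prod, -, -, -, -, -, hNle⟩ := h3 M g hg t htT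
      have htT' := htT
      rw [Cfg.Tup, mem_sigma] at htT'
      have hNodd : g.N t % 2 = 1 := by
        rw [← Nat.odd_iff, ← hs'prod]
        refine Finset.prod_induction _ Odd (fun a b => Odd.mul) (by decide) (fun q hq => ?_)
        exact (hs'p q hq).1.odd_of_ne_two (by have := (hs'p q hq).2.1; omega)
      have h4 : 4 ^ g.r * u ^ 2 % 2 = 0 := by
        have : 2 ∣ 4 ^ g.r := by
          have : (4 : ℕ) ^ g.r = 4 ^ (g.r - 1) * 4 := by
            rw [← pow_succ]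
            congr 1
            have := hg.hr
            omega
          rw [this]
          exact dvd_mul_of_dvd_right (by norm_num) _
        exact Nat.mod_eq_zero_of_dvd (this.mul_right _)
      have hs1 : 1 ≤ s := by
        rcases Nat.eq_zero_or_pos s with h0 | h0
        · exfalso
          rw [h0] at hsu
          simp only [ne_eq, OfNat.ofNat_ne_zero, not_false_eq_true, zero_pow, mul_zero,
            zero_add] at hsu
          omega
        · exact h0
      have hNle' : ((3 * g.N t : ℕ) : ℝ) ≤ 3 * 2 ^ g.I := by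
        have : 3 * g.N t ≤ 3 * 2 ^ g.I := Nat.mul_le_mul le_rfl hNle
        exact_mod_cast this
      have hsum : ((3 * g.N t : ℕ) : ℝ) = δ * (s : ℝ) ^ 2 + 4 ^ g.r * (u : ℝ) ^ 2 := by
        rw [hsu]; push_cast; ring
      rw [hsum] at hNle'
      have hδR : (0 : ℝ) < δ := by exact_mod_cast hδpos
      have hsS : s ≤ S0 := by
        apply Nat.le_floor
        apply Real.le_sqrt_of_sq_le
        rw [le_div_iff₀ hδR]
        have : (0 : ℝ) ≤ 4 ^ g.r * (u : ℝ) ^ 2 := by positivity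
        linarith
      have huU : u ≤ U0 := by
        apply Nat.le_floor
        rw [Cfg.U, le_div_iff₀ (by positivity)]
        apply Real.le_sqrt_of_sq_le
        have h5 : (0 : ℝ) ≤ δ * (s : ℝ) ^ 2 := by positivity
        have h6 : ((2 : ℝ) ^ g.r) ^ 2 = 4 ^ g.r := by
          rw [← pow_mul, mul_comm, pow_mul]; norm_num
        rw [mul_pow, h6]
        linarith
      refine ⟨mem_product.mpr ⟨htT'.1, mem_Icc.mpr ⟨hs1, hsS⟩⟩, ?_⟩
      simp only [mem_filter, mem_range]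
      refine ⟨Nat.lt_succ_of_le huU, ?_⟩
      rw [← hsu]
      exact Dvd.intro (t.2 * 3) (by rw [Cfg.N]; ring)
    · intro t ht t' ht' heq
      rw [mem_coe, mem_filter] at ht ht'
      obtain ⟨htT, hRep⟩ := ht
      obtain ⟨htT', hRep'⟩ := ht'
      obtain ⟨s, u, hfe, hsu⟩ := hf t hRep
      obtain ⟨s', u', hfe', hsu'⟩ := hf t' hRep'
      rw [hfe, hfe'] at heq
      have e1 := Sigma.mk.inj_iff.mp heq
      obtain ⟨e2, e3⟩ := e1
      have e3' : u = u' := eq_of_heq e3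
      have e4 : t.1 = t'.1 := congrArg Prod.fst e2
      have e5 : s = s' := congrArg Prod.snd e2
      subst e3' e5
      rw [← hsu'] at hsu
      rw [Cfg.Tup, mem_sigma] at htT
      have hmpos := m_pos g hg htT.1
      rw [Cfg.N, Cfg.N, ← e4] at hsu
      have e6 : t.2 = t'.2 := by
        have h7 : (g.Rp * g.Q t.1) * t.2 = (g.Rp * g.Q t.1) * t'.2 := by
          have : 3 * (g.Rp * g.Q t.1 * t.2) = 3 * (g.Rp * g.Q t.1 * t'.2) := hsu
          omega
        exact Nat.eq_of_mul_eq_mul_left hmpos h7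
      exact Sigma.ext e4 (heq_of_eq e6)
  -- the number of u for given A and s
  have hfib : ∀ x ∈ g.Fam ×ˢ (Icc 1 S0), (((range (U0 + 1)).filter
      (fun u => (g.Rp * g.Q x.1) ∣ δ * x.2 ^ 2 + 4 ^ g.r * u ^ 2)).card : ℝ) ≤
      2 ^ (H + 1) * (g.U / g.Rp) * (1 / (g.Q x.1 : ℝ)) := by
    rintro ⟨A, s⟩ hx
    rw [mem_product] at hx
    have hA : A ∈ g.Fam := hx.1
    have hpr := AA_prime g hg hA
    have hc1 : ((range (U0 + 1)).filter
        (fun u => (g.Rp * g.Q A) ∣ δ * s ^ 2 + 4 ^ g.r * u ^ 2)).card ≤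
        (U0 / (g.Rp * g.Q A) + 1) * 2 ^ H := by
      have := count_le (AA g A) (fun q => Om g.r δ s q) U0 (fun q hq => (hpr q hq).1)
        (fun q hq => om_le h1 g.r δ s q hδ (hpr q hq).1 (hpr q hq).2)
      rw [AA_prod g hg hA, AA_card g hg hA] at this
      refine le_trans (Finset.card_le_card ?_) this
      intro u hu
      rw [mem_filter] at hu ⊢
      refine ⟨hu.1, fun q hq => ?_⟩
      have hqd : q ∣ δ * s ^ 2 + 4 ^ g.r * u ^ 2 := by
        refine dvd_trans ?_ hu.2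
        rw [← AA_prod g hg hA]
        exact Finset.dvd_prod_of_mem _ hq
      simp only [Om, mem_filter, mem_range]
      refine ⟨Nat.mod_lt _ (hpr q hq).1.pos, ?_⟩
      have h5 : (δ * s ^ 2 + 4 ^ g.r * (u % q) ^ 2) ≡ (δ * s ^ 2 + 4 ^ g.r * u ^ 2) [MOD q] :=
        Nat.ModEq.add_left _ (Nat.ModEq.mul_left _ ((Nat.mod_modEq u q).pow 2))
      exact (h5.dvd_iff dvd_rfl).mpr hqd
    have hmpos := m_pos g hg hA
    have hmR : (0 : ℝ) < ((g.Rp * g.Q A : ℕ) : ℝ) := by exact_mod_cast hmpos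
    have hmle : ((g.Rp * g.Q A : ℕ) : ℝ) ≤ g.U := by
      refine le_trans ?_ (U_ge g hg)
      exact_mod_cast hg.hRQ A hA
    have hc2 : (((U0 / (g.Rp * g.Q A) + 1) * 2 ^ H : ℕ) : ℝ) ≤
        (g.U / ((g.Rp * g.Q A : ℕ) : ℝ) + g.U / ((g.Rp * g.Q A : ℕ) : ℝ)) * 2 ^ H := by
      push_cast
      refine mul_le_mul_of_nonneg_right (add_le_add ?_ ?_) (by positivity)
      · refine le_trans Nat.cast_div_le ?_
        push_cast
        refine div_le_div_of_nonneg_right (Nat.floor_le hUnn) ?_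
        positivity
      · rw [le_div_iff₀ (by push_cast at hmR; exact hmR), one_mul]
        push_cast at hmle
        exact hmle
    calc _ ≤ (((U0 / (g.Rp * g.Q A) + 1) * 2 ^ H : ℕ) : ℝ) := by exact_mod_cast hc1
      _ ≤ _ := hc2
      _ = _ := by
        have hR0 : (g.Rp : ℝ) ≠ 0 := by
          have : g.Rp ≠ 0 := fun h => by rw [h, zero_mul] at hmpos; exact lt_irrefl _ hmpos
          exact_mod_cast this
        have hQ0 : (g.Q A : ℝ) ≠ 0 := by
          have : g.Q A ≠ 0 := fun h => by rw [h, mul_zero] at hmpos; exact lt_irrefl _ hmpos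
          exact_mod_cast this
        push_cast
        field_simp
        ring
  have hXcard : (X.card : ℝ) ≤ ∑ x ∈ g.Fam ×ˢ (Icc 1 S0),
      2 ^ (H + 1) * (g.U / g.Rp) * (1 / (g.Q x.1 : ℝ)) := by
    rw [hX, card_sigma]
    push_cast
    exact Finset.sum_le_sum hfib
  have hsum : ∑ x ∈ g.Fam ×ˢ (Icc 1 S0), 2 ^ (H + 1) * (g.U / g.Rp) * (1 / (g.Q x.1 : ℝ)) =
      (S0 : ℝ) * (2 ^ (H + 1) * (g.U / g.Rp) * ∑ A ∈ g.Fam, 1 / (g.Q A : ℝ)) := by
    rw [Finset.sum_product_right]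
    simp only [← Finset.mul_sum]
    rw [Finset.sum_const, Nat.card_Icc, nsmul_eq_mul]
    simp only [Nat.add_sub_cancel]
    ring
  have hS0le : (S0 : ℝ) ≤ Real.sqrt (3 * 2 ^ g.I / δ) := Nat.floor_le (Real.sqrt_nonneg _)
  have hW := sum_inv g h2
  have hWnn : 0 ≤ ∑ A ∈ g.Fam, 1 / (g.Q A : ℝ) := Finset.sum_nonneg (fun A _ => by positivity)
  calc ((g.Tup.filter (fun t => Rep g.r δ (g.N t))).card : ℝ) ≤ (X.card : ℝ) := by
        exact_mod_cast hcard1
    _ ≤ _ := hXcard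
    _ = _ := hsum
    _ ≤ Real.sqrt (3 * 2 ^ g.I / δ) * (2 ^ (H + 1) * (g.U / g.Rp) * g.W) := by
        refine mul_le_mul hS0le (mul_le_mul_of_nonneg_left hW (by positivity)) (by positivity)
          (Real.sqrt_nonneg _)
    _ = _ := by ring

end Pool.Agent.H413R3.OddL
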