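import Pool.Agent.H307R2.OP.Final
import Pool.Agent.H413R3.OddL.QR
import Pool.Agent.H413R3.OddL.BAD2
import Pool.Agent.H413R3.OddL.F1
import Pool.Agent.H413R3.OddL.F2
import Pool.Agent.H413R3.OddL.STR
import Pool.Agent.H413R3.OddL.FIX
import Pool.Agent.H413R3.OddL.SIG
import Pool.Agent.H413R3.OddL.T2
import Pool.Agent.H413R3.OddL.T3
import Pool.Agent.H413R3.OddL.T5
import Pool.Agent.H413R3.OddL.KP

set_option autoImplicit false

/-! Assembly for the kernels `≡ 11 (mod 12)` -/

namespace Pool.Agent.H413R3.OddL

open Pool.Agent.H307R2.OP

theorem badAt_main : BadAtCount := badAtCount badCount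

theorem strong_main : StrongStmt := strong bt4 pc

theorem fix_main : FixStmt := fix qr sv

theorem sig_main : SigStmt := sig qr

theorem tupLarge_main : TupLarge := tupLarge qr es tup

theorem tupSmall_main : TupSmall := tupSmall qr es tup pc

theorem good_main : GoodCount := goodCount qr es tup fix_main sig_main

theorem badSum_main : BadSum := badSum badAt_main

theorem badNum_main : BadNum := badNum badAt_main

end Pool.Agent.H413R3.OddL
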