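import Pool.Agent.H413R3.Odd.BTU
import Pool.Agent.H413R3.OddT.Par
import Pool.Agent.H413R3.OddT.T0
import Pool.Agent.H413R3.OddT.Btu
import Pool.Agent.H413R3.OddL.Defs

set_option autoImplicit false

/-! The tuples that are lost (adapted from `Pool.Agent.H307R2.OP.BTOT`) -/

namespace Pool.Agent.H413R3.OddL

open Pool.Agent.H413R3.OddT

open Finset Filter Topology
open Pool.Agent.H307R2.OP
open Pool.Agent.H307R2.OP.BT
open Pool.Agent.H413R3.Odd (ev_exp2)

theorem rep_le {r δ N : ℕ} (hr : 1 ≤ r) (hδ : AdmL δ) (hN : N % 2 = 1) (I : ℕ) (hNI : N ≤ 2 ^ I)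
    (h : Rep r δ N) : δ ∈ Icc 1 (3 * 2 ^ I) := by
  obtain ⟨s, u, hsu⟩ := h
  have h1 : 1 ≤ δ := by
    have := hδ.1
    omega
  rw [Finset.mem_Icc]
  refine ⟨h1, ?_⟩
  have hs : s ≠ 0 := by
    rintro rfl
    have h4 : 4 ^ r % 2 = 0 := by
      obtain ⟨k, rfl⟩ := Nat.exists_eq_add_of_le hr
      rw [pow_add, pow_one]
      omega
    have h5 : (4 ^ r * u ^ 2) % 2 = 0 := by
      rw [Nat.mul_mod, h4, Nat.zero_mul, Nat.zero_mod]
    have : δ * 0 ^ 2 = 0 := by simp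
    rw [this] at hsu
    omega
  have hs2 : 1 ≤ s ^ 2 := Nat.one_le_pow _ _ (Nat.pos_of_ne_zero hs)
  calc δ ≤ δ * s ^ 2 := Nat.le_mul_of_pos_right _ hs2
    _ ≤ 3 * N := by rw [hsu]; exact Nat.le_add_right _ _
    _ ≤ 3 * 2 ^ I := by omega

open Classical in
/-- the tuples that are lost, with a factor `y ^ (4 M - 3)` to spare -/
theorem badTotalT (h1 : QRStmt) (h2 : TupStmt) (h4 : TupLarge) (h5 : TupSmall)
    (h7 : BadSum) (h8 : BadNum) (h9 : StrongBad) (h11 : PCStmt) (tt p n K : ℕ) :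
    ∀ M : ℕ, 2 ≤ M → ∀ c1 : ℝ, 0 < c1 → ∃ y0 : ℕ, ∀ y : ℕ, y0 ≤ y → ∀ I : ℕ,
  y ^ (2 * M + 4) ≤ I → I ≤ 2 * y ^ (2 * M + 4) → ∀ (R : Finset ℕ) (c : ℕ), (c = 3 ∨ c = 5) →
  RCT M y I K R →
  (((cfgT M y p n I R c).Tup.filter (fun t => (∃ δ : ℕ, AdmL δ ∧ Bad I y δ ∧
      Rep (rr M y) δ ((cfgT M y p n I R c).N t)) ∨
      ∃ e : ℕ, e ≤ tt ∧ ∃ u : ℕ, 3 * (cfgT M y p n I R c).N t + e =
        4 ^ (rr M y) * u ^ 2)).card : ℝ) ≤
    c1 / (y : ℝ) ^ (4 * M - 3) * (2 ^ I / ((cfgT M y p n I R c).Rp * I)) *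
      ((cfgT M y p n I R c).W / 2 ^ M) * (3 / 8) := by
  intro M hM2 c1 hc1
  have hM : 1 ≤ M := by omega
  obtain ⟨C5, hC5, hsmall⟩ := h5
  obtain ⟨C9, hC9⟩ := h9
  obtain ⟨y7, hy7⟩ := h7 M hM
  obtain ⟨y8, hy8⟩ := h8 M hM 0.001 (by norm_num)
  obtain ⟨y10, hy10⟩ := parT h11 M p n K hM2
  obtain ⟨ya, hya'⟩ := ev_pow (2 * M + 4 + (4 * M - 3)) 2 (by norm_num)
    (48 * 2 ^ M * 2 ^ p) c1 hc1
  obtain ⟨ye, hye⟩ := ev_pow (2 * M + 2) 2 (by norm_num) (640 * K) 1 one_pos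
  obtain ⟨yb, hyb'⟩ := ev_pow (1 + (4 * M - 3)) ((2 : ℝ) ^ (0.3 : ℝ))
    (Real.one_lt_rpow (by norm_num) (by norm_num)) (32 * 2 ^ M * ((tt : ℝ) + 2) ^ 2) c1 hc1
  obtain ⟨yc, hyc⟩ := ev_pow (2 * M + 4) 2 (by norm_num) 2 1 one_pos
  obtain ⟨yd, hyd'⟩ := ev_exp2 (4 * M - 3) (8 * M * C5 * 2 ^ M) c1 hc1
  refine ⟨C9 + y7 + y8 + y10 + ya + yb + yc + yd + ye + 15,
    fun y hy I hI1 hI2 R c hc35 hRC => ?_⟩
  have hyR : (0 : ℝ) < y := by exact_mod_cast (by omega : 0 < y)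
  set c0 : ℝ := c1 / (y : ℝ) ^ (4 * M - 3) with hc0def
  have hyp : (0 : ℝ) < (y : ℝ) ^ (4 * M - 3) := by positivity
  have hc0 : 0 < c0 := by positivity
  have hyI0 : y ≤ I := (Nat.le_self_pow (by omega) y).trans hI1
  have hya : 48 * (2 : ℝ) ^ M * (y : ℝ) ^ (2 * M + 4) ≤ c0 / 2 ^ p * 2 ^ y := by
    have := hya' y (by omega)
    rw [pow_add] at this
    have h2p : (0 : ℝ) < 2 ^ p := by positivity
    rw [hc0def, div_div, div_mul_eq_mul_div, le_div_iff₀ (by positivity)]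
    linarith
  have ht2 : (0 : ℝ) < ((tt : ℝ) + 2) ^ 2 := by positivity
  have hyb : 32 * (2 : ℝ) ^ M * (I : ℝ) ^ 1 ≤
      c0 / ((tt : ℝ) + 2) ^ 2 * ((2 : ℝ) ^ (0.3 : ℝ)) ^ I := by
    have := hyb' I (by omega)
    rw [pow_add] at this
    rw [hc0def, div_div, div_mul_eq_mul_div, le_div_iff₀ (by positivity)]
    refine le_trans ?_ this
    have h3 : (y : ℝ) ^ (4 * M - 3) ≤ (I : ℝ) ^ (4 * M - 3) :=
      pow_le_pow_left₀ hyR.le (by exact_mod_cast hyI0) _
    calc 32 * (2 : ℝ) ^ M * (I : ℝ) ^ 1 * ((y : ℝ) ^ (4 * M - 3) * ((tt : ℝ) + 2) ^ 2)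
        ≤ 32 * (2 : ℝ) ^ M * (I : ℝ) ^ 1 * ((I : ℝ) ^ (4 * M - 3) * ((tt : ℝ) + 2) ^ 2) := by
          gcongr
      _ = 32 * (2 : ℝ) ^ M * ((tt : ℝ) + 2) ^ 2 * ((I : ℝ) ^ 1 * (I : ℝ) ^ (4 * M - 3)) := by
          ring
  have hyd : 8 * M * C5 * 2 ^ M * Real.exp (-(0.002 * (y : ℝ))) ≤ c0 := by
    have := hyd' y (by omega)
    rw [hc0def, le_div_iff₀ hyp]
    linarith
  obtain ⟨hOk, hcard, hYr1, hYr2, hk, hS, hκ, hk2, -, hW⟩ :=
    hy10 y (by omega) I hI1 hI2 R c hRC.card hRC.pr hRC.le hc35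
  have h7' := hy7 y (by omega) I hI1 hI2
  obtain ⟨h8a, h8b⟩ := hy8 y (by omega) I hI1 hI2
  set g := cfgT M y p n I R c with hg
  have hgI : g.I = I := rfl
  have hgr : g.r = rr M y := rfl
  have hgR : g.R = R := rfl
  have hgκ : ∀ j, g.κ j = kap M y j := fun _ => rfl
  have hgRp : g.Rp = ∏ q ∈ R, q := rfl
  set Y := y ^ (2 * M - 1) with hY
  have hy1 : 1 ≤ y := by omega
  have hyY : y ≤ Y := by
    calc y = y ^ 1 := (pow_one y).symm
      _ ≤ y ^ (2 * M - 1) := Nat.pow_le_pow_right hy1 (by omega)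
  have hyI : y ≤ I := by
    calc y = y ^ 1 := (pow_one y).symm
      _ ≤ y ^ (2 * M + 4) := Nat.pow_le_pow_right hy1 (by omega)
      _ ≤ I := hI1
  have hI : 1 ≤ I := by omega
  have hIr : (1 : ℝ) ≤ I := by exact_mod_cast hI
  have hRp1 : 1 ≤ g.Rp := by
    rw [hgRp]
    exact Finset.prod_pos fun q hq => (hRC.pr q hq).1.pos
  have hRpr : (1 : ℝ) ≤ g.Rp := by exact_mod_cast hRp1
  have hW0 : 0 < g.W := lt_of_lt_of_le (by positivity) hW
  set A : ℝ := 2 ^ I / (g.Rp * I) * g.W with hA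
  have hA0 : 0 < A := by positivity
  -- numbers of the tuples
  have hNodd : ∀ t ∈ g.Tup, g.N t % 2 = 1 ∧ g.N t ≤ 2 ^ I := by
    intro t ht
    obtain ⟨s, hs1, hs2, -, -, -, -, -, hs8⟩ := h2 M g hOk t ht
    rw [← hs2]
    refine ⟨prod_odd s fun q hq => ⟨(hs1 q hq).1, (hs1 q hq).2.1⟩, ?_⟩
    rw [hs2]
    exact hs8
  -- the three parts
  set La := g.Tup.filter (fun t => ∃ e : ℕ, e ≤ tt ∧ ∃ u : ℕ, 3 * g.N t + e =
    4 ^ g.r * u ^ 2) with hLa
  set D := (Icc 1 (3 * 2 ^ I)).filter (fun δ => AdmL δ ∧ Bad I y δ) with hD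
  let P : ℕ → Finset (Σ _ : Fin M → Finset ℕ, ℕ) :=
    fun δ => g.Tup.filter (fun t => Rep g.r δ (g.N t))
  have hsub : g.Tup.filter (fun t => (∃ δ : ℕ, AdmL δ ∧ Bad I y δ ∧ Rep (rr M y) δ (g.N t)) ∨
      ∃ e : ℕ, e ≤ tt ∧ ∃ u : ℕ, 3 * g.N t + e = 4 ^ (rr M y) * u ^ 2) ⊆ La ∪ D.biUnion P := by
    intro t ht
    rw [Finset.mem_filter] at ht
    rw [Finset.mem_union]
    rcases ht.2 with ⟨δ, hδ1, hδ2, hδ3⟩ | hu
    · right
      rw [Finset.mem_biUnion]
      obtain ⟨hN1, hN2⟩ := hNodd t ht.1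
      refine ⟨δ, ?_, Finset.mem_filter.2 ⟨ht.1, hδ3⟩⟩
      rw [hD, Finset.mem_filter]
      refine ⟨rep_le ?_ hδ1 hN1 I hN2 hδ3, hδ1, hδ2⟩
      have := hOk.hr
      rw [hgr] at this
      omega
    · left
      exact Finset.mem_filter.2 ⟨ht.1, hu⟩
  -- (a)
  have hLa1 : (La.card : ℝ) ≤ A * (c0 / (8 * 2 ^ M)) := by
    have hUnn : 0 ≤ g.U := by unfold Cfg.U; positivity
    have hsubL : La ⊆ (range (tt + 1)).biUnion (fun e =>
        g.Tup.filter (fun t => ∃ u : ℕ, 3 * g.N t + e = 4 ^ g.r * u ^ 2)) := by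
      intro t ht
      obtain ⟨ht1, e, he, hu⟩ := Finset.mem_filter.1 ht
      rw [Finset.mem_biUnion]
      exact ⟨e, Finset.mem_range.2 (by omega), Finset.mem_filter.2 ⟨ht1, hu⟩⟩
    have hcardL : (La.card : ℝ) ≤ ((tt : ℝ) + 2) ^ 2 * (2 ^ (g.I / 8) * (g.U + 2)) := by
      have e1 : (La.card : ℝ) ≤ ∑ e ∈ range (tt + 1),
          ((g.Tup.filter (fun t => ∃ u : ℕ, 3 * g.N t + e = 4 ^ g.r * u ^ 2)).card : ℝ) := by
        have := (Finset.card_le_card hsubL).trans Finset.card_biUnion_le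
        exact_mod_cast this
      refine e1.trans ?_
      calc ∑ e ∈ range (tt + 1),
          ((g.Tup.filter (fun t => ∃ u : ℕ, 3 * g.N t + e = 4 ^ g.r * u ^ 2)).card : ℝ)
          ≤ ∑ e ∈ range (tt + 1), 2 ^ (g.I / 8) * (((tt : ℝ) + 2) * (g.U + 2)) := by
            refine Finset.sum_le_sum fun e he => ?_
            refine le_trans (le_trans (le_of_eq ?_) (tupZeroT h2 e M g hOk)) ?_
            · congr
            apply mul_le_mul_of_nonneg_left _ (by positivity)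
            have he1 : (e : ℝ) ≤ tt := by
              have := Finset.mem_range.1 he
              exact_mod_cast (by omega : e ≤ tt)
            have htt0 : (0 : ℝ) ≤ tt := Nat.cast_nonneg _
            nlinarith
        _ = ((tt : ℝ) + 1) * (2 ^ (g.I / 8) * (((tt : ℝ) + 2) * (g.U + 2))) := by
            rw [Finset.sum_const, Finset.card_range, nsmul_eq_mul]
            push_cast
            ring
        _ ≤ ((tt : ℝ) + 2) * (2 ^ (g.I / 8) * (((tt : ℝ) + 2) * (g.U + 2))) := by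
            apply mul_le_mul_of_nonneg_right (by linarith) (by positivity)
        _ = ((tt : ℝ) + 2) ^ 2 * (2 ^ (g.I / 8) * (g.U + 2)) := by ring
    have h := zero_num M I g.r g.Rp (c0 / ((tt : ℝ) + 2) ^ 2) g.W
      (2 ^ (g.I / 8) * (g.U + 2)) (by positivity) hI hRp1 (by rw [hgRp]; exact hRC.le) hW
      hyb (le_of_eq rfl)
    rw [hA]
    calc (La.card : ℝ) ≤ ((tt : ℝ) + 2) ^ 2 * (2 ^ (g.I / 8) * (g.U + 2)) := hcardL
      _ ≤ ((tt : ℝ) + 2) ^ 2 * (2 ^ I / (g.Rp * I) * g.W *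
          (c0 / ((tt : ℝ) + 2) ^ 2 / (8 * 2 ^ M))) := by gcongr
      _ = 2 ^ I / (g.Rp * I) * g.W * (c0 / (8 * 2 ^ M)) := by field_simp
  -- (b1)
  have hb1 : ∑ δ ∈ D.filter (fun δ => 2 ^ (8 * Y) < δ), ((P δ).card : ℝ) ≤
      A * (c0 / (8 * 2 ^ M)) := by
    set H := ∑ j, g.k j + g.R.card + 1 with hH
    have hH1 : H - p ≤ Y := by
      have : H + n = 2 ^ (rr M y - 1) + p := hcard
      omega
    have h := large_num M I g.r g.Rp (H - p) Y y (c0 / 2 ^ p) g.W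
      (∑ δ ∈ D.filter (fun δ => 2 ^ (8 * Y) < δ), 1 / Real.sqrt δ) (by positivity) hI hI2 hRp1 hW0.le hH1 hyY
      hya (by
        refine le_trans (le_of_eq ?_) h7'
        apply Finset.sum_congr _ (fun _ _ => rfl)
        rw [hD, Finset.filter_filter]
        ext δ
        simp only [Finset.mem_filter]
        tauto)
    have hp2 : (0 : ℝ) < 2 ^ p := by positivity
    have h' := mul_le_mul_of_nonneg_left h hp2.le
    have hre : (2 : ℝ) ^ p * (2 ^ I / (g.Rp * I) * g.W * (c0 / 2 ^ p / (8 * 2 ^ M))) =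
        A * (c0 / (8 * 2 ^ M)) := by
      rw [hA]
      field_simp
    rw [hre] at h'
    refine le_trans ?_ h'
    have hpH : (2 : ℝ) ^ H ≤ 2 ^ p * 2 ^ (H - p) := by
      rw [← pow_add]
      exact pow_le_pow_right₀ (by norm_num) (by omega)
    rw [← mul_assoc, Finset.mul_sum]
    refine Finset.sum_le_sum fun δ hδ => ?_
    have hδ2 := (Finset.mem_filter.1 (Finset.mem_filter.1 hδ).1)
    have h9 := h4 M g hOk δ hδ2.2.1
    have hδ0 : (0 : ℝ) < δ := by
      have := (Finset.mem_Icc.1 hδ2.1).1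
      exact_mod_cast this
    refine h9.trans ?_
    have hUR : 0 ≤ g.U / g.Rp * g.W := by
      unfold Cfg.U
      positivity
    calc Real.sqrt (3 * 2 ^ g.I / δ) * 2 ^ H * (g.U / g.Rp) * g.W
        = Real.sqrt (3 * 2 ^ g.I / δ) * (2 ^ H) * (g.U / g.Rp * g.W) := by ring
      _ ≤ Real.sqrt (3 * 2 ^ g.I / δ) * (2 ^ p * 2 ^ (H - p)) * (g.U / g.Rp * g.W) := by
          gcongr
      _ = _ := by
          rw [Real.sqrt_div (by positivity)]
          unfold Cfg.U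
          rw [hgI]
          ring
  -- (b2), (b3)
  have hb3 : ∑ δ ∈ D.filter (fun δ => ¬ 2 ^ (8 * Y) < δ), ((P δ).card : ℝ) ≤
      A * (c0 / (8 * 2 ^ M)) := by
    set D' := D.filter (fun δ => ¬ 2 ^ (8 * Y) < δ) with hD'
    let Dj : Fin M → Finset ℕ := fun j => D'.filter (fun δ => ¬ StrongAt (kap M y j) δ ∧
      ((j : ℕ) + 1 < M → StrongAt (kap M y ((j : ℕ) + 1)) δ))
    have hmemD : ∀ δ ∈ D', 1 ≤ δ ∧ δ ≤ 2 ^ (8 * Y) ∧ AdmL δ ∧ Bad I y δ := by
      intro δ hδ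
      obtain ⟨ha, hb⟩ := Finset.mem_filter.1 hδ
      obtain ⟨hc, hd⟩ := Finset.mem_filter.1 ha
      exact ⟨(Finset.mem_Icc.1 hc).1, not_lt.1 hb, hd.1, hd.2⟩
    have hpt : ∀ δ ∈ D', ((P δ).card : ℝ) ≤
        ∑ j : Fin M, if δ ∈ Dj j then ((P δ).card : ℝ) else 0 := by
      intro δ hδ
      obtain ⟨hδ1, hδ2, hδ3, hδ4⟩ := hmemD δ hδ
      by_cases hst : StrongAt (kap M y 0) δ
      · -- killed
        obtain ⟨q, hqR, hqJ⟩ := hRC.kills δ hδ3 hδ2 hst
        have hempty : P δ = ∅ := by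
          apply Finset.filter_eq_empty_iff.2
          intro t ht
          obtain ⟨s, -, -, -, -, hs5, -, hs7, -⟩ := h2 M g hOk t ht
          have hqs : q ∈ s := hs5 hqR
          exact h1.kill g.r δ (g.N t) q hδ3 (hRC.pr q hqR).1 (hRC.pr q hqR).2.1 hqJ
            (hs7 q hqs).1 (hs7 q hqs).2
        rw [hempty]
        simp
      · obtain ⟨j, hj1, hj2⟩ := last_level hM (fun i => StrongAt (kap M y i) δ) hst
        have hmem : δ ∈ Dj j := Finset.mem_filter.2 ⟨hδ, hj1, hj2⟩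
        calc ((P δ).card : ℝ) = (if δ ∈ Dj j then ((P δ).card : ℝ) else 0) := by
              rw [if_pos hmem]
          _ ≤ ∑ j : Fin M, if δ ∈ Dj j then ((P δ).card : ℝ) else 0 :=
              Finset.single_le_sum
                (f := fun j : Fin M => if δ ∈ Dj j then ((P δ).card : ℝ) else 0)
                (fun i _ => by positivity) (Finset.mem_univ j)
    have hjb : ∀ j : Fin M, ∑ δ ∈ D', (if δ ∈ Dj j then ((P δ).card : ℝ) else 0) ≤
        C5 * A * Real.exp (-(0.002 * (y : ℝ))) := by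
      intro j
      have hsum : ∑ δ ∈ D', (if δ ∈ Dj j then ((P δ).card : ℝ) else 0) =
          ∑ δ ∈ Dj j, ((P δ).card : ℝ) := by
        rw [← Finset.sum_filter]
        apply Finset.sum_congr _ (fun _ _ => rfl)
        ext δ
        simp only [Finset.mem_filter, Dj]
        tauto
      rw [hsum]
      have hPδ : ∀ δ ∈ Dj j, ((P δ).card : ℝ) ≤ C5 * A * (1 - 1 / 80) ^ (g.k j) := by
        intro δ hδ
        obtain ⟨ha, hb⟩ := Finset.mem_filter.1 hδ
        obtain ⟨hδ1, hδ2, hδ3, hδ4⟩ := hmemD δ ha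
        have h15 : 15 ≤ g.κ j := by
          have := (hκ j).1
          rw [hgκ]
          omega
        have hpw : 640 * K * g.κ j ≤ 2 ^ (g.κ j) := by
          have hκ1 := (hκ j).1
          have hκle : g.κ j ≤ y ^ (2 * M + 2) := by
            rw [hgκ]
            exact Nat.pow_le_pow_right hy1 (by omega)
          have h12 := hye y (by omega)
          rw [one_mul] at h12
          have h13 : 640 * K * y ^ (2 * M + 2) ≤ 2 ^ y := by exact_mod_cast h12
          calc 640 * K * g.κ j ≤ 640 * K * y ^ (2 * M + 2) := Nat.mul_le_mul_left _ hκle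
            _ ≤ 2 ^ y := h13
            _ ≤ 2 ^ (g.κ j) := Nat.pow_le_pow_right (by norm_num) (by rw [hgκ]; exact hκ1)
        have hth := theta_condT g K j δ (by rw [hgR]; exact hRC.card) h15 hpw
          (by rw [hgκ]; exact hS j) (by rw [hgκ]; exact hb.1)
        refine (hsmall M g hOk δ hδ3 j (1 / 80) (by norm_num) (by norm_num) hth).trans
          (le_of_eq ?_)
        rw [hA, hgI]
        ring
      have hnum : ((Dj j).card : ℝ) ≤ (2 : ℝ) ^ (0.001 * (y : ℝ) ^ (2 * (j : ℕ) + 1)) := by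
        by_cases hjM : (j : ℕ) + 1 < M
        · refine le_trans ?_ (h8b j hjM)
          have : Dj j ⊆ (Icc 1 (2 ^ (8 * Y))).filter
              (fun δ => AdmL δ ∧ BadAt I (kap M y ((j : ℕ) + 1)) δ) := by
            intro δ hδ
            obtain ⟨ha, hb⟩ := Finset.mem_filter.1 hδ
            obtain ⟨hδ1, hδ2, hδ3, hδ4⟩ := hmemD δ ha
            rw [Finset.mem_filter]
            refine ⟨Finset.mem_Icc.2 ⟨hδ1, hδ2⟩, hδ3, ?_⟩
            have hκ1 := hκ ⟨(j : ℕ) + 1, hjM⟩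
            simp only at hκ1
            -- the exponent is at least `y ^ 4`
            have hy4 : y ^ 2 ≤ kap M y ((j : ℕ) + 1) := by
              unfold kap
              exact Nat.pow_le_pow_right hy1 (by omega)
            have hy5 : y ≤ kap M y ((j : ℕ) + 1) / 4 := by
              rw [Nat.le_div_iff_mul_le (by norm_num)]
              refine le_trans ?_ hy4
              rw [sq]
              exact Nat.mul_le_mul_left _ (by omega)
            apply hC9 I (kap M y ((j : ℕ) + 1)) δ (by omega) hκ1.2 _ hδ1 _ (hb.2 hjM)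
            · have hc1 := hyc y (by omega)
              rw [one_mul] at hc1
              have hc2 : 2 * y ^ (2 * M + 4) ≤ 2 ^ y := by exact_mod_cast hc1
              calc I ≤ 2 * y ^ (2 * M + 4) := hI2
                _ ≤ 2 ^ y := hc2
                _ ≤ 2 ^ (kap M y ((j : ℕ) + 1) / 4) := Nat.pow_le_pow_right (by norm_num) hy5
            · refine hδ2.trans (Nat.pow_le_pow_right (by norm_num) ?_)
              refine le_trans ?_ hI1
              rw [hY]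
              have e1 : y ^ (2 * M + 4) = y ^ 5 * y ^ (2 * M - 1) := by
                rw [← pow_add]
                congr 1
                omega
              rw [e1]
              apply Nat.mul_le_mul_right
              calc 8 ≤ y := by omega
                _ = y ^ 1 := (pow_one y).symm
                _ ≤ y ^ 5 := Nat.pow_le_pow_right hy1 (by norm_num)
          exact Nat.cast_le.2 (Finset.card_le_card this)
        · have hj : (j : ℕ) + 1 = M := by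
            have := j.2
            omega
          have e1 : 2 * (j : ℕ) + 1 = 2 * M - 1 := by omega
          rw [e1]
          refine le_trans ?_ h8a
          have : Dj j ⊆ (Icc 1 (2 ^ (8 * Y))).filter (fun δ => AdmL δ ∧ Bad I y δ) := by
            intro δ hδ
            obtain ⟨ha, hb⟩ := Finset.mem_filter.1 hδ
            obtain ⟨hδ1, hδ2, hδ3, hδ4⟩ := hmemD δ ha
            rw [Finset.mem_filter]
            exact ⟨Finset.mem_Icc.2 ⟨hδ1, hδ2⟩, hδ3, hδ4⟩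
          exact Nat.cast_le.2 (Finset.card_le_card this)
      have hyx : (y : ℝ) ≤ (y : ℝ) ^ (2 * (j : ℕ) + 1) := by
        have h : y ^ 1 ≤ y ^ (2 * (j : ℕ) + 1) := Nat.pow_le_pow_right hy1 (by omega)
        rw [pow_one] at h
        exact_mod_cast h
      have hfin := small_num ((Dj j).card : ℝ) ((y : ℝ) ^ (2 * (j : ℕ) + 1)) y (g.k j) hyx
        (Nat.cast_nonneg _) hnum (hk j).1
      calc ∑ δ ∈ Dj j, ((P δ).card : ℝ)
          ≤ ∑ δ ∈ Dj j, C5 * A * (1 - 1 / 80) ^ (g.k j) := Finset.sum_le_sum hPδ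
        _ = C5 * A * (((Dj j).card : ℝ) * (1 - 1 / 80) ^ (g.k j)) := by
            rw [Finset.sum_const, nsmul_eq_mul]
            ring
        _ ≤ C5 * A * Real.exp (-(0.002 * (y : ℝ))) := by gcongr
    calc ∑ δ ∈ D', ((P δ).card : ℝ)
        ≤ ∑ δ ∈ D', ∑ j : Fin M, (if δ ∈ Dj j then ((P δ).card : ℝ) else 0) :=
          Finset.sum_le_sum hpt
      _ = ∑ j : Fin M, ∑ δ ∈ D', (if δ ∈ Dj j then ((P δ).card : ℝ) else 0) :=
          Finset.sum_comm
      _ ≤ ∑ j : Fin M, C5 * A * Real.exp (-(0.002 * (y : ℝ))) :=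
          Finset.sum_le_sum fun j _ => hjb j
      _ = M * (C5 * A * Real.exp (-(0.002 * (y : ℝ)))) := by
          rw [Finset.sum_const, Finset.card_univ, Fintype.card_fin, nsmul_eq_mul]
      _ ≤ A * (c0 / (8 * 2 ^ M)) := by
          have hd := hyd
          rw [mul_div_assoc', le_div_iff₀ (by positivity)]
          calc (M : ℝ) * (C5 * A * Real.exp (-(0.002 * (y : ℝ)))) * (8 * 2 ^ M)
              = A * (8 * M * C5 * 2 ^ M * Real.exp (-(0.002 * (y : ℝ)))) := by ring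
            _ ≤ A * c0 := by gcongr
  -- conclusion
  have hcardle : ((g.Tup.filter (fun t => (∃ δ : ℕ, AdmL δ ∧ Bad I y δ ∧
      Rep (rr M y) δ (g.N t)) ∨ ∃ e : ℕ, e ≤ tt ∧ ∃ u : ℕ, 3 * g.N t + e = 4 ^ (rr M y) * u ^ 2)).card : ℝ) ≤
      (La.card : ℝ) + ∑ δ ∈ D, ((P δ).card : ℝ) := by
    have e1 := (Finset.card_le_card hsub).trans (Finset.card_union_le _ _)
    have e2 : (D.biUnion P).card ≤ ∑ δ ∈ D, (P δ).card := Finset.card_biUnion_le
    have e3 := e1.trans (Nat.add_le_add_left e2 _)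
    exact_mod_cast e3
  have hsplit := Finset.sum_filter_add_sum_filter_not D (fun δ => 2 ^ (8 * Y) < δ)
    (fun δ => ((P δ).card : ℝ))
  have hfin : A * (c0 / (8 * 2 ^ M)) = c0 * A / 2 ^ M / 8 := by
    field_simp
  have hA2 : 0 ≤ c0 * A / 2 ^ M := by positivity
  refine hcardle.trans ?_
  have hgoal : c0 * (2 ^ I / ((g.Rp : ℝ) * I)) * (g.W / 2 ^ M) * (3 / 8) =
      A * (c0 / (8 * 2 ^ M)) * 3 := by
    rw [hA]
    field_simp
  rw [hgoal]
  linarith

end Pool.Agent.H413R3.OddL
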