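import Pool.Agent.H413R3.OddT.Fin
import Pool.Agent.H413R3.OddL.Main

set_option autoImplicit false

/-!
# Odd values of the number of `t`-multipartitions for `t ≡ 1 (mod 12)`
-/

namespace Pool.Agent.H413R3.OddL

open Finset
open Pool.Agent.H413R3.OddT
open Pool.Agent.H307R2.OP (sp)
open Pool.Agent.H307R2.OP.OC (sp_pow)

/-- the exponents `(4 ^ r - t) / 3` -/
theorem exponentsL (t : ℕ) (ht : t % 12 = 1) :
    ∃ k a m0 : ℕ, 1 ≤ k ∧ m0 < 2 ^ (k - 1) ∧ a % 2 = 0 ∧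
    ((∃ r i, t < 4 ^ r ∧ Nat.testBit ((4 ^ r - t) / 3) (2 * i + 1) = true) → a ≠ 0) ∧
    ∀ r, k ≤ r → 3 * (2 * sp a + 4 * sp (2 ^ (r - 1) - 2 ^ (k - 1) + m0) + 1) + t = 4 ^ r := by
  have key : ∀ k, t < 4 ^ k → ∃ a m0 : ℕ, 1 ≤ k ∧ m0 < 2 ^ (k - 1) ∧ a % 2 = 0 ∧
      (∀ i, Nat.testBit ((4 ^ k - t) / 3) (2 * i + 1) = Nat.testBit a i) ∧
      ∀ r, k ≤ r → 3 * (2 * sp a + 4 * sp (2 ^ (r - 1) - 2 ^ (k - 1) + m0) + 1) + t = 4 ^ r := by
    intro k hk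
    have hk1 : 1 ≤ k := by
      rcases Nat.eq_zero_or_pos k with h | h
      · subst h
        simp at hk
        omega
      · exact h
    have h43 : (4 : ℕ) ^ k % 3 = 1 := by
      rw [Nat.pow_mod]; norm_num
    have h44 : 4 ≤ (4 : ℕ) ^ k := by
      calc 4 = 4 ^ 1 := by norm_num
        _ ≤ 4 ^ k := Nat.pow_le_pow_right (by norm_num) hk1
    have h4d : (4 : ℕ) ^ k % 4 = 0 := by
      obtain ⟨k', rfl⟩ : ∃ k', k = k' + 1 := ⟨k - 1, by omega⟩
      rw [pow_succ]; omega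
    set j := (4 ^ k - t) / 3 with hj
    have hj3 : 3 * j + t = 4 ^ k := by omega
    obtain ⟨e, o, h1, h2, h3⟩ := digits j
    have he2 : sp e = 4 * sp (e / 2) + e % 2 := by
      conv_lhs => rw [← Nat.div_add_mod e 2]
      exact sp_two_mul_add _ _ (Nat.mod_lt _ (by norm_num))
    have ho2 : sp o = 4 * sp (o / 2) + o % 2 := by
      conv_lhs => rw [← Nat.div_add_mod o 2]
      exact sp_two_mul_add _ _ (Nat.mod_lt _ (by norm_num))
    have he1 : e % 2 = 1 := by omega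
    have ho1 : o % 2 = 0 := by omega
    have helt : e < 2 ^ k := h2 k (by omega)
    have hp : 2 ^ k = 2 * 2 ^ (k - 1) := by
      rw [← pow_succ']
      congr 1
      omega
    refine ⟨o, e / 2, hk1, by omega, ho1, h3, fun r hr => ?_⟩
    have hle : 2 ^ (k - 1) ≤ 2 ^ (r - 1) := Nat.pow_le_pow_right (by norm_num) (by omega)
    have hsplit : 2 ^ (r - 1) - 2 ^ (k - 1) + e / 2 = 2 ^ (k - 1) * (2 ^ (r - k) - 1) + e / 2 := by
      have : 2 ^ (r - 1) = 2 ^ (k - 1) * 2 ^ (r - k) := by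
        rw [← pow_add]
        congr 1
        omega
      rw [this, Nat.mul_sub, mul_one]
    have h5 := sp_pow (r - k)
    rw [hsplit, sp_high (k - 1) _ _ (by omega)]
    have h6 : 4 ^ r = 4 * (4 ^ (k - 1) * 4 ^ (r - k)) := by
      rw [← pow_add, ← pow_succ']
      congr 1
      omega
    have h7 : 4 ^ k = 4 * 4 ^ (k - 1) := by
      rw [← pow_succ']
      congr 1
      omega
    rw [h6, ← h5]
    rw [h7] at hj3
    generalize 4 ^ (k - 1) = P at *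
    generalize sp (2 ^ (r - k) - 1) = X' at *
    have e8 : 4 * (P * (3 * X' + 1)) = 12 * (P * X') + 4 * P := by ring
    rw [e8]
    omega
  by_cases hex : ∃ r i, t < 4 ^ r ∧ Nat.testBit ((4 ^ r - t) / 3) (2 * i + 1) = true
  · obtain ⟨r, i, hr, hbit⟩ := hex
    obtain ⟨a, m0, h1, h2, h3, h4, h5⟩ := key r hr
    refine ⟨r, a, m0, h1, h2, h3, fun _ ha => ?_, h5⟩
    rw [h4 i, ha] at hbit
    simp at hbit
  · obtain ⟨k, hk⟩ : ∃ k, t < 4 ^ k := ⟨t, Nat.lt_pow_self (by norm_num)⟩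
    obtain ⟨a, m0, h1, h2, h3, h4, h5⟩ := key k hk
    exact ⟨k, a, m0, h1, h2, h3, fun h => absurd h hex, h5⟩

/-- **odd values of `p_t` for `t ≡ 1 (mod 12)`** -/
theorem finalL (t : ℕ) (ht : t % 12 = 1)
    (hbit : t % 24 = 1 ∨
      ∃ r i : ℕ, t < 4 ^ r ∧ Nat.testBit ((4 ^ r - t) / 3) (2 * i + 1) = true) :
    ∀ ε : ℝ, 0 < ε → ∃ x0 : ℝ, ∀ x : ℕ, x0 ≤ x → ∀ b ρ : ℕ,
    (2 : ℝ) ^ b ≤ Real.log x ^ (2 - ε) →
    Real.sqrt x * Real.log x ^ (1 - ε) / 2 ^ b ≤ (oddAPT t b ρ x : ℝ) := by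
  rcases hbit with hbit | hbit
  · exact finalT t hbit
  · obtain ⟨k, a, m0, hk1, hm0, ha0, ha, hexp⟩ := exponentsL t ht
    have ha' := ha hbit
    refine from_y (oddAPT t) (oddAPT_mono t) (mainYT t ht k a m0 (a + 2) ha0 (fun w => w = a)
      (by rintro w h; omega) ?_ hexp ?_)
    · exact rChoiceT strong_main killPrime a (by omega)
    · intro m' hodd hm3 s hs hcard h
      exact ocT a m' s hs hcard h

end Pool.Agent.H413R3.OddL
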